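import Pool.Agent.H41.HYP.S3

/-!
# HYP: irreducibility
-/

set_option autoImplicit false

namespace Pool.HYP

open Polynomial

namespace Irr

variable {F : Type} [Field F]

/-- The substitution `t = z`, `x = x z ^ h`, as polynomials in `z` over `F[x]`. -/
noncomputable def th (F : Type) [Field F] (h : ℕ) : F[X][X] →+* F[X][X] :=
  eval₂RingHom (eval₂RingHom ((C : F[X] →+* F[X][X]).comp (C : F →+* F[X])) X)
    ((C (X : F[X]) : F[X][X]) * X ^ h)

theorem th_mono (h j k : ℕ) (c : F) :
    th F h (monomial j (monomial k c)) = C (monomial j c) * X ^ (k + j * h) := by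
  unfold th
  rw [coe_eval₂RingHom, eval₂_monomial, coe_eval₂RingHom, eval₂_monomial]
  simp only [RingHom.comp_apply]
  rw [mul_pow, ← pow_mul, ← C_pow, pow_add, ← C_mul_X_pow_eq_monomial, C_mul, C_pow]
  ring

theorem th_coeff (h : ℕ) (p : F[X][X]) (M j : ℕ) :
    ((th F h p).coeff M).coeff j = if j * h ≤ M then (p.coeff j).coeff (M - j * h) else 0 := by
  induction p using Polynomial.induction_on' with
  | add p q hp hq =>
    rw [map_add, coeff_add, coeff_add, hp, hq, coeff_add, coeff_add]
    split_ifs
    · rfl
    · rw [add_zero]
  | monomial i q =>
    induction q using Polynomial.induction_on' with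
    | add p q hp hq =>
      rw [map_add (monomial i), map_add, coeff_add, coeff_add, hp, hq, coeff_add, coeff_add]
      split_ifs
      · rfl
      · rw [add_zero]
    | monomial k c =>
      rw [th_mono, coeff_C_mul, coeff_X_pow, coeff_monomial]
      by_cases hij : i = j
      · rw [if_pos hij, coeff_monomial, hij]
        by_cases h1 : M = k + j * h
        · rw [if_pos h1, mul_one, coeff_monomial, if_pos rfl, if_pos (by omega),
            if_pos (by omega)]
        · rw [if_neg h1, mul_zero, coeff_zero]
          split_ifs
          · omega
          · rfl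
          · rfl
      · rw [if_neg hij, coeff_zero, ite_self]
        split_ifs
        · rw [mul_one, coeff_monomial, if_neg hij]
        · rw [mul_zero, coeff_zero]

/-- The leading part of a monic polynomial at the expected degree. -/
theorem th_monic {h : ℕ} {a : F[X][X]} (ha : a.Monic) :
    (((th F h a).coeff (a.natDegree * h)).coeff a.natDegree) = 1 := by
  rw [th_coeff, if_pos le_rfl, Nat.sub_self]
  have h1 : a.coeff a.natDegree = 1 := ha
  rw [h1, coeff_one_zero]

theorem th_deg {h : ℕ} {a : F[X][X]} (ha : a.Monic) : a.natDegree * h ≤ (th F h a).natDegree := by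
  refine le_natDegree_of_ne_zero fun h0 => ?_
  have h1 := th_monic (h := h) ha
  rw [h0, coeff_zero] at h1
  exact zero_ne_one h1

theorem th_lc {h : ℕ} {a : F[X][X]} (ha : a.Monic) :
    ((th F h a).coeff (a.natDegree * h)).natDegree = a.natDegree := by
  refine le_antisymm ?_ (le_natDegree_of_ne_zero ?_)
  · refine natDegree_le_iff_coeff_eq_zero.2 fun j hj => ?_
    rw [th_coeff, coeff_eq_zero_of_natDegree_lt hj]
    simp
  · rw [th_monic ha]
    exact one_ne_zero

end Irr

open Irr in
/-- **IRR.** -/
theorem irr : IRRStmt := by
  intro F _ g D h htm htd hti f hf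
  obtain ⟨hm, hd, hc, -⟩ := hf
  have hirr : Irreducible f := by
    rw [hm.irreducible_iff_natDegree]
    refine ⟨?_, ?_⟩
    · intro h1
      rw [h1, natDegree_one] at hd
      omega
    · intro a b ha hb hab
      by_contra hcon
      have hN : a.natDegree + b.natDegree = 2 * g + 1 := by
        rw [← hd, ← hab, ha.natDegree_mul hb]
      -- the substitution of `f`
      have hfM : (th F h f).natDegree ≤ (2 * g + 1) * h := by
        refine natDegree_le_iff_coeff_eq_zero.2 fun M hM => ?_
        ext j
        rw [th_coeff, coeff_zero]
        split_ifs with h1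
        · rcases Nat.lt_or_ge (2 * g + 1) j with h2 | h2
          · rw [coeff_eq_zero_of_natDegree_lt (show f.natDegree < j by omega), coeff_zero]
          · have h3 := (hc (2 * g + 1 - j) (by omega)).1
            rw [show 2 * g + 1 - (2 * g + 1 - j) = j by omega] at h3
            refine coeff_eq_zero_of_natDegree_lt (h3.trans_lt ?_)
            have h4 : (2 * g + 1 - j) * h + j * h = (2 * g + 1) * h := by
              rw [← add_mul]
              congr 1
              omega
            omega
        · rfl
      have hfc : (th F h f).coeff ((2 * g + 1) * h) = D.top := by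
        ext j
        rw [th_coeff]
        rcases Nat.lt_or_ge (2 * g + 1) j with h2 | h2
        · rw [coeff_eq_zero_of_natDegree_lt (show f.natDegree < j by omega), coeff_zero,
            ite_self, coeff_eq_zero_of_natDegree_lt (show D.top.natDegree < j by omega)]
        · rw [if_pos (Nat.mul_le_mul_right h h2)]
          have h3 := (hc (2 * g + 1 - j) (by omega)).2
          rw [show 2 * g + 1 - (2 * g + 1 - j) = j by omega] at h3
          rw [← h3]
          congr 1
          have h4 : (2 * g + 1 - j) * h + j * h = (2 * g + 1) * h := by
            rw [← add_mul]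
            congr 1
            omega
          omega
      have hf0 : D.top ≠ 0 := htm.ne_zero
      have hfd : (th F h f).natDegree = (2 * g + 1) * h :=
        le_antisymm hfM (le_natDegree_of_ne_zero (by rw [hfc]; exact hf0))
      have hmul : th F h a * th F h b = th F h f := by rw [← map_mul, hab]
      have hne : th F h f ≠ 0 := by
        intro h0
        rw [h0, coeff_zero] at hfc
        exact hf0 hfc.symm
      have hna : th F h a ≠ 0 := left_ne_zero_of_mul (hmul ▸ hne)
      have hnb : th F h b ≠ 0 := right_ne_zero_of_mul (hmul ▸ hne)
      have hdeg : (th F h a).natDegree + (th F h b).natDegree = (2 * g + 1) * h := by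
        rw [← natDegree_mul hna hnb, hmul, hfd]
      have hda := th_deg (h := h) ha
      have hdb := th_deg (h := h) hb
      have hsum : a.natDegree * h + b.natDegree * h = (2 * g + 1) * h := by rw [← add_mul, hN]
      have ea : (th F h a).natDegree = a.natDegree * h := by omega
      have eb : (th F h b).natDegree = b.natDegree * h := by omega
      have hlc : (th F h a).coeff (a.natDegree * h) * (th F h b).coeff (b.natDegree * h) =
          D.top := by
        have h1 : (th F h a * th F h b).leadingCoeff =
            (th F h a).leadingCoeff * (th F h b).leadingCoeff := leadingCoeff_mul _ _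
        rw [hmul] at h1
        unfold leadingCoeff at h1
        rw [hfd, hfc, ea, eb] at h1
        exact h1.symm
      rcases hti.isUnit_or_isUnit hlc.symm with h1 | h1
      · have h2 := natDegree_eq_zero_of_isUnit h1
        rw [th_lc ha] at h2
        omega
      · have h2 := natDegree_eq_zero_of_isUnit h1
        rw [th_lc hb] at h2
        omega
  exact (hm.irreducible_iff_irreducible_map_fraction_map (K := RatFunc F)).1 hirr

end Pool.HYP
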