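import Pool.Agent.H41.HYP.S6

/-!
# HYP: the size of the set of all polynomials
-/

set_option autoImplicit false

namespace Pool.HYP

open Polynomial

namespace Hfn

theorem sum_up (h N : ℕ) : (∑ i ∈ Finset.range N, ((i + 1) * h + 1)) * 2 =
    h * (N * (N + 1)) + 2 * N := by
  induction N with
  | zero => simp
  | succ N ih =>
    rw [Finset.sum_range_succ, add_mul, ih]
    ring

theorem sum_dn (h g : ℕ) : ∑ j : Fin (2 * g + 1), ((2 * g + 1 - (j : ℕ)) * h + 1) =
    h * ((2 * g + 1) * (g + 1)) + (2 * g + 1) := by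
  rw [Fin.sum_univ_eq_sum_range (fun j => (2 * g + 1 - j) * h + 1) (2 * g + 1)]
  have h1 := Finset.sum_range_reflect (fun i => (i + 1) * h + 1) (2 * g + 1)
  have h2 : ∑ j ∈ Finset.range (2 * g + 1), ((2 * g + 1 - j) * h + 1) =
      ∑ j ∈ Finset.range (2 * g + 1), ((2 * g + 1 - 1 - j + 1) * h + 1) := by
    refine Finset.sum_congr rfl fun j hj => ?_
    rw [Finset.mem_range] at hj
    rw [show 2 * g + 1 - j = 2 * g + 1 - 1 - j + 1 by omega]
  rw [h2, h1]
  have h3 := sum_up h (2 * g + 1)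
  have h4 : h * ((2 * g + 1) * (2 * g + 1 + 1)) + 2 * (2 * g + 1) =
      (h * ((2 * g + 1) * (g + 1)) + (2 * g + 1)) * 2 := by ring
  omega

end Hfn

/-- **HFN.** -/
theorem hfn : HFNStmt := by
  intro F _ _ g h
  classical
  obtain ⟨Φ, hΦ⟩ : ∃ Φ : F[X][X] → (∀ j : Fin (2 * g + 1), Fin ((2 * g + 1 - (j : ℕ)) * h + 1) → F),
      Φ = fun f j k => (f.coeff j).coeff k := ⟨_, rfl⟩
  have hinj : Set.InjOn Φ (Hyp F g h) := by
    intro f hf f' hf' hff
    ext1 j
    rcases Nat.lt_trichotomy j (2 * g + 1) with hj | hj | hj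
    · ext k
      by_cases hk : k < (2 * g + 1 - j) * h + 1
      · have h1 := congrFun (congrFun hff ⟨j, hj⟩) ⟨k, hk⟩
        rw [hΦ] at h1
        exact h1
      · have e1 : 2 * g + 1 - (2 * g + 1 - j) = j := by omega
        have h1 := hf.2.2.1 (2 * g + 1 - j) (by omega)
        have h2 := hf'.2.2.1 (2 * g + 1 - j) (by omega)
        rw [e1] at h1 h2
        rw [coeff_eq_zero_of_natDegree_lt (by omega), coeff_eq_zero_of_natDegree_lt (by omega)]
    · have h1 : f.coeff f.natDegree = 1 := hf.1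
      have h2 : f'.coeff f'.natDegree = 1 := hf'.1
      rw [hf.2.1] at h1
      rw [hf'.2.1] at h2
      rw [hj, h1, h2]
    · rw [coeff_eq_zero_of_natDegree_lt (by rw [hf.2.1]; exact hj),
        coeff_eq_zero_of_natDegree_lt (by rw [hf'.2.1]; exact hj)]
  have hfin : (Hyp F g h).Finite :=
    Set.Finite.of_finite_image (Set.toFinite _) hinj
  refine ⟨hfin, ?_⟩
  have h1 := Set.ncard_le_ncard_of_injOn Φ (fun f _ => Set.mem_univ _) hinj (Set.toFinite _)
  refine h1.trans (le_of_eq ?_)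
  rw [Set.ncard_univ, Nat.card_pi]
  have h2 : ∀ j : Fin (2 * g + 1), Nat.card (Fin ((2 * g + 1 - (j : ℕ)) * h + 1) → F) =
      Nat.card F ^ ((2 * g + 1 - (j : ℕ)) * h + 1) := by
    intro j
    rw [Nat.card_fun, Nat.card_fin]
  rw [Finset.prod_congr rfl fun j _ => h2 j, Finset.prod_pow_eq_pow_sum, Hfn.sum_dn]

end Pool.HYP
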